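import Mathlib
import Pool.Graph.R_seed8.Helper582.Cube

set_option autoImplicit false

namespace Pool.Agent.H805.T5

open Pool.Agent.Helper582.Cube

/-- set of cells coded by a number -/
def st (e : ℕ) : Set ℕ := {i | e.testBit i = true}

/-- the 109 winning lines of the 5 × 5 × 5 cube; cell `(x, y, z)` is bit `25 x + 5 y + z` -/
def lines5 : List ℕ :=
  [0x1f, 0x3e0, 0x7c00,
   0xf8000, 0x108421, 0x111110,
   0x210842, 0x421084, 0x842108,
   0x1041041, 0x1084210, 0x1f00000,
   0x3e000000, 0x7c0000000, 0xf800000000,
   0x1f0000000000, 0x210842000000, 0x222220000000,
   0x421084000000, 0x842108000000, 0x1084210000000,
   0x2082082000000, 0x2108420000000, 0x3e00000000000,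
   0x7c000000000000, 0xf80000000000000, 0x1f000000000000000,
   0x3e0000000000000000, 0x421084000000000000, 0x444440000000000000,
   0x842108000000000000, 0x1084210000000000000, 0x2108420000000000000,
   0x4104104000000000000, 0x4210840000000000000, 0x7c00000000000000000,
   0xf8000000000000000000, 0x1f00000000000000000000, 0x3e000000000000000000000,
   0x7c0000000000000000000000, 0x842108000000000000000000, 0x888880000000000000000000,
   0x1084210000000000000000000, 0x2108420000000000000000000, 0x4210840000000000000000000,
   0x8208208000000000000000000, 0x8421080000000000000000000, 0xf800000000000000000000000,
   0x10000008000004000002000001, 0x10000010000010000010000010, 0x10000100001000010000100000,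
   0x10000200004000080001000000, 0x20000010000008000004000002, 0x20000200002000020000200000,
   0x40000020000010000008000004, 0x40000400004000040000400000, 0x80000040000020000010000008,
   0x80000800008000080000800000, 0x100000040000010000004000001, 0x100000080000040000020000010,
   0x100000800004000020000100000, 0x100001000010000100001000000, 0x1f0000000000000000000000000,
   0x200000100000080000040000020, 0x200000200000200000200000200, 0x400000200000100000080000040,
   0x800000400000200000100000080, 0x1000000800000400000200000100, 0x2000000800000200000080000020,
   0x2000001000000800000400000200, 0x3e00000000000000000000000000, 0x4000002000001000000800000400,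
   0x4000004000004000004000004000, 0x8000004000002000001000000800, 0x10000008000004000002000001000,
   0x20000010000008000004000002000, 0x40000010000004000001000000400, 0x40000020000010000008000004000,
   0x7c000000000000000000000000000, 0x80000040000020000010000008000, 0x80000080000080000080000080000,
   0x100000080000040000020000010000, 0x200000100000080000040000020000, 0x400000200000100000080000040000,
   0x800000200000080000020000008000, 0x800000400000200000100000080000, 0xf80000000000000000000000000000,
   0x1000000040000001000000040000001, 0x1000000080000004000000200000010, 0x1000000800000400000200000100000,
   0x1000001000001000001000001000000, 0x1084210000000000000000000000000, 0x1111100000000000000000000000000,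
   0x2000000080000002000000080000002, 0x2000001000000800000400000200000, 0x2108420000000000000000000000000,
   0x4000000100000004000000100000004, 0x4000002000001000000800000400000, 0x4210840000000000000000000000000,
   0x8000000200000008000000200000008, 0x8000004000002000001000000800000, 0x8421080000000000000000000000000,
   0x10000000200000004000000080000001, 0x10000000400000010000000400000010, 0x10000004000001000000400000100000,
   0x10000008000004000002000001000000, 0x10410410000000000000000000000000, 0x10842100000000000000000000000000,
   0x1f000000000000000000000000000000]

/-- what is left of the lines when Maker owns `mk` and Breaker owns `br` -/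
def posF (mk br : ℕ) : Set (Set ℕ) := {s | ∃ l ∈ lines5, Nat.land l br = 0 ∧ s = st l \ st mk}

/-- Breaker, moving second, wins from the position -/
def BP (mk br : ℕ) : Prop := BW (posF mk br)

end Pool.Agent.H805.T5
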