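import Mathlib
import Pool.Graph.R_seed8.Helper582.Cube
import Pool.Agent.H805.T5.Base

set_option autoImplicit false

namespace Pool.Agent.H805.T5

open Pool.Agent.Helper582.Cube Set

/-! ### lists of cells as masks -/

def maskL (L : List ℕ) : ℕ :=
  List.rec (motive := fun _ => ℕ) 0 (fun c _ ih => Nat.lor (Nat.shiftLeft 1 c) ih) L

/-- image of the cell `c` under the packed permutation `g` (8 bit slots) -/
def ap (g c : ℕ) : ℕ := Nat.land (Nat.shiftRight g (Nat.mul 8 c)) 255

def maskG (g : ℕ) (L : List ℕ) : ℕ :=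
  List.rec (motive := fun _ => ℕ) 0 (fun c _ ih => Nat.lor (Nat.shiftLeft 1 (ap g c)) ih) L

def mem' (L : List ℕ) (m : ℕ) : Bool :=
  List.rec (motive := fun _ => Bool) false (fun e _ ih => cond (Nat.beq e m) true ih) L

def allL {α : Type} (L : List α) (f : α → Bool) : Bool :=
  List.rec (motive := fun _ => Bool) true (fun e _ ih => cond (f e) ih false) L

theorem mem'_spec {L : List ℕ} {m : ℕ} (h : mem' L m = true) : m ∈ L := by
  induction L with
  | nil => exact absurd h (by simp [mem'])
  | cons e L ih =>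
    have h' : cond (Nat.beq e m) true (mem' L m) = true := h
    cases hb : Nat.beq e m with
    | true =>
      have := Nat.eq_of_beq_eq_true hb
      subst this
      exact List.mem_cons_self
    | false =>
      rw [hb, cond_false] at h'
      exact List.mem_cons_of_mem _ (ih h')

theorem allL_spec {α : Type} {L : List α} {f : α → Bool} (h : allL L f = true) :
    ∀ e ∈ L, f e = true := by
  induction L with
  | nil => intro e he; exact absurd he (by simp)
  | cons a L ih =>
    have h' : cond (f a) (allL L f) false = true := h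
    cases hf : f a with
    | true =>
      rw [hf, cond_true] at h'
      intro e he
      rcases List.mem_cons.1 he with rfl | he
      · exact hf
      · exact ih h' e he
    | false => rw [hf, cond_false] at h'; exact absurd h' (by simp)

theorem st_or (a b : ℕ) : st (Nat.lor a b) = st a ∪ st b := by
  ext i
  have : Nat.lor a b = a ||| b := rfl
  simp only [st, mem_ofPred_eq, this, Nat.testBit_or, Bool.or_eq_true, mem_union]

theorem st_shift (c : ℕ) : st (Nat.shiftLeft 1 c) = {c} := by
  ext i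
  have : Nat.shiftLeft 1 c = 1 <<< c := rfl
  simp only [st, mem_ofPred_eq, this, Nat.one_shiftLeft, Nat.testBit_two_pow, decide_eq_true_eq,
    mem_singleton_iff]
  exact eq_comm

theorem st_zero : st 0 = ∅ := by
  ext i; simp [st]

theorem mem_maskL {L : List ℕ} {i : ℕ} : i ∈ st (maskL L) ↔ i ∈ L := by
  induction L with
  | nil =>
    have : maskL [] = 0 := rfl
    rw [this, st_zero]; simp
  | cons c L ih =>
    have : maskL (c :: L) = Nat.lor (Nat.shiftLeft 1 c) (maskL L) := rfl
    rw [this, st_or, st_shift, mem_union, mem_singleton_iff, ih, List.mem_cons]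

theorem mem_maskG {g : ℕ} {L : List ℕ} {i : ℕ} : i ∈ st (maskG g L) ↔ ∃ c ∈ L, ap g c = i := by
  induction L with
  | nil =>
    have : maskG g [] = 0 := rfl
    rw [this, st_zero]; simp
  | cons c L ih =>
    have : maskG g (c :: L) = Nat.lor (Nat.shiftLeft 1 (ap g c)) (maskG g L) := rfl
    rw [this, st_or, st_shift, mem_union, mem_singleton_iff, ih]
    constructor
    · rintro (h | ⟨d, hd, h⟩)
      · exact ⟨c, List.mem_cons_self, h.symm⟩
      · exact ⟨d, List.mem_cons_of_mem _ hd, h⟩
    · rintro ⟨d, hd, h⟩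
      rcases List.mem_cons.1 hd with rfl | hd
      · exact Or.inl h.symm
      · exact Or.inr ⟨d, hd, h⟩

theorem land_zero {a b : ℕ} : Nat.land a b = 0 ↔ ∀ i ∈ st a, i ∉ st b := by
  have hl : Nat.land a b = a &&& b := rfl
  rw [hl]
  constructor
  · intro h i ha hb
    have := congrArg (fun z => Nat.testBit z i) h
    simp only [Nat.testBit_and, Nat.zero_testBit] at this
    simp only [st, mem_ofPred_eq] at ha hb
    rw [ha, hb] at this
    simp at this
  · intro h
    apply Nat.eq_of_testBit_eq
    intro i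
    rw [Nat.testBit_and, Nat.zero_testBit]
    cases ha : a.testBit i with
    | false => rfl
    | true =>
      cases hb : b.testBit i with
      | false => rfl
      | true => exact absurd hb (h i ha)

/-! ### the lines as lists of cells -/

def lineCells : List (List ℕ) :=
  [[0, 1, 2, 3, 4], [5, 6, 7, 8, 9], [10, 11, 12, 13, 14], [15, 16, 17, 18, 19],
   [0, 5, 10, 15, 20], [4, 8, 12, 16, 20], [1, 6, 11, 16, 21], [2, 7, 12, 17, 22],
   [3, 8, 13, 18, 23], [0, 6, 12, 18, 24], [4, 9, 14, 19, 24], [20, 21, 22, 23, 24],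
   [25, 26, 27, 28, 29], [30, 31, 32, 33, 34], [35, 36, 37, 38, 39], [40, 41, 42, 43, 44],
   [25, 30, 35, 40, 45], [29, 33, 37, 41, 45], [26, 31, 36, 41, 46], [27, 32, 37, 42, 47],
   [28, 33, 38, 43, 48], [25, 31, 37, 43, 49], [29, 34, 39, 44, 49], [45, 46, 47, 48, 49],
   [50, 51, 52, 53, 54], [55, 56, 57, 58, 59], [60, 61, 62, 63, 64], [65, 66, 67, 68, 69],
   [50, 55, 60, 65, 70], [54, 58, 62, 66, 70], [51, 56, 61, 66, 71], [52, 57, 62, 67, 72],
   [53, 58, 63, 68, 73], [50, 56, 62, 68, 74], [54, 59, 64, 69, 74], [70, 71, 72, 73, 74],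
   [75, 76, 77, 78, 79], [80, 81, 82, 83, 84], [85, 86, 87, 88, 89], [90, 91, 92, 93, 94],
   [75, 80, 85, 90, 95], [79, 83, 87, 91, 95], [76, 81, 86, 91, 96], [77, 82, 87, 92, 97],
   [78, 83, 88, 93, 98], [75, 81, 87, 93, 99], [79, 84, 89, 94, 99], [95, 96, 97, 98, 99],
   [0, 25, 50, 75, 100], [4, 28, 52, 76, 100], [20, 40, 60, 80, 100], [24, 43, 62, 81, 100],
   [1, 26, 51, 76, 101], [21, 41, 61, 81, 101], [2, 27, 52, 77, 102], [22, 42, 62, 82, 102],
   [3, 28, 53, 78, 103], [23, 43, 63, 83, 103], [0, 26, 52, 78, 104], [4, 29, 54, 79, 104],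
   [20, 41, 62, 83, 104], [24, 44, 64, 84, 104], [100, 101, 102, 103, 104], [5, 30, 55, 80, 105],
   [9, 33, 57, 81, 105], [6, 31, 56, 81, 106], [7, 32, 57, 82, 107], [8, 33, 58, 83, 108],
   [5, 31, 57, 83, 109], [9, 34, 59, 84, 109], [105, 106, 107, 108, 109], [10, 35, 60, 85, 110],
   [14, 38, 62, 86, 110], [11, 36, 61, 86, 111], [12, 37, 62, 87, 112], [13, 38, 63, 88, 113],
   [10, 36, 62, 88, 114], [14, 39, 64, 89, 114], [110, 111, 112, 113, 114], [15, 40, 65, 90, 115],
   [19, 43, 67, 91, 115], [16, 41, 66, 91, 116], [17, 42, 67, 92, 117], [18, 43, 68, 93, 118],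
   [15, 41, 67, 93, 119], [19, 44, 69, 94, 119], [115, 116, 117, 118, 119], [0, 30, 60, 90, 120],
   [4, 33, 62, 91, 120], [20, 45, 70, 95, 120], [24, 48, 72, 96, 120], [100, 105, 110, 115, 120],
   [104, 108, 112, 116, 120], [1, 31, 61, 91, 121], [21, 46, 71, 96, 121], [101, 106, 111, 116, 121],
   [2, 32, 62, 92, 122], [22, 47, 72, 97, 122], [102, 107, 112, 117, 122], [3, 33, 63, 93, 123],
   [23, 48, 73, 98, 123], [103, 108, 113, 118, 123], [0, 31, 62, 93, 124], [4, 34, 64, 94, 124],
   [20, 46, 72, 98, 124], [24, 49, 74, 99, 124], [100, 106, 112, 118, 124], [104, 109, 114, 119, 124],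
   [120, 121, 122, 123, 124]]

theorem lines_eq : lines5 = lineCells.map maskL := by decide +kernel

theorem cells_lt {l : List ℕ} (hl : l ∈ lineCells) : ∀ c ∈ l, c < 125 := by
  have h : allL lineCells (fun l => allL l (fun c => Nat.ble (Nat.succ c) 125)) = true := by
    decide +kernel
  intro c hc
  exact Nat.le_of_ble_eq_true (allL_spec (allL_spec h l hl) c hc)

/-- the family of a position given by lists of cells -/
def posL (M B : List ℕ) : Set (Set ℕ) :=
  {s | ∃ l ∈ lineCells, (∀ c ∈ l, c ∉ B) ∧ s = {x | x ∈ l ∧ x ∉ M}}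

theorem posF_eq {mk br : ℕ} {M B : List ℕ} (hM : ∀ i, i ∈ st mk ↔ i ∈ M)
    (hB : ∀ i, i ∈ st br ↔ i ∈ B) : posF mk br = posL M B := by
  ext s
  constructor
  · rintro ⟨l, hl, h0, rfl⟩
    rw [lines_eq, List.mem_map] at hl
    obtain ⟨l', hl', rfl⟩ := hl
    refine ⟨l', hl', ?_, ?_⟩
    · intro c hc hcB
      exact (land_zero.1 h0) c (mem_maskL.2 hc) ((hB c).2 hcB)
    · ext x
      rw [mem_sdiff, mem_maskL, hM]
      rfl
  · rintro ⟨l, hl, h0, rfl⟩
    refine ⟨maskL l, ?_, ?_, ?_⟩
    · rw [lines_eq]; exact List.mem_map_of_mem hl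
    · rw [land_zero]
      intro i hi hb
      exact h0 i (mem_maskL.1 hi) ((hB i).1 hb)
    · ext x
      rw [mem_sdiff, mem_maskL, hM]
      rfl

/-! ### automorphisms -/

def r125 : List ℕ := 
  [0, 1, 2, 3, 4, 5, 6, 7, 8, 9, 10, 11, 12, 13, 14, 15, 16, 17, 18, 19,
  20, 21, 22, 23, 24, 25, 26, 27, 28, 29, 30, 31, 32, 33, 34, 35, 36, 37, 38, 39,
  40, 41, 42, 43, 44, 45, 46, 47, 48, 49, 50, 51, 52, 53, 54, 55, 56, 57, 58, 59,
  60, 61, 62, 63, 64, 65, 66, 67, 68, 69, 70, 71, 72, 73, 74, 75, 76, 77, 78, 79,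
  80, 81, 82, 83, 84, 85, 86, 87, 88, 89, 90, 91, 92, 93, 94, 95, 96, 97, 98, 99,
  100, 101, 102, 103, 104, 105, 106, 107, 108, 109, 110, 111, 112, 113, 114, 115, 116, 117, 118, 119,
  120, 121, 122, 123, 124]

def full : ℕ := 0x1fffffffffffffffffffffffffffffff

def isAut (g : ℕ) : Bool :=
  cond (Nat.beq (maskG g r125) full) (allL lineCells (fun l => mem' lines5 (maskG g l))) false

theorem mem_r125 {i : ℕ} : i ∈ r125 ↔ i < 125 := by
  have : r125 = List.range 125 := by decide +kernel
  rw [this, List.mem_range]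

theorem mem_full {i : ℕ} : i ∈ st full ↔ i < 125 := by
  have h : full = maskL r125 := by decide +kernel
  rw [h, mem_maskL, mem_r125]

theorem aut_facts {g : ℕ} (h : isAut g = true) :
    (∀ c < 125, ap g c < 125) ∧ (∀ c < 125, ∀ d < 125, ap g c = ap g d → c = d) ∧
    ∀ l ∈ lineCells, ∃ l' ∈ lineCells, ∀ i, i ∈ l' ↔ ∃ c ∈ l, ap g c = i := by
  unfold isAut at h
  cases hb : Nat.beq (maskG g r125) full with
  | false => rw [hb, cond_false] at h; exact absurd h (by simp)
  | true =>
    rw [hb, cond_true] at h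
    have he := Nat.eq_of_beq_eq_true hb
    have h1 : ∀ c < 125, ap g c < 125 := by
      intro c hc
      rw [← mem_full, ← he, mem_maskG]
      exact ⟨c, mem_r125.2 hc, rfl⟩
    have h2 : ∀ i < 125, ∃ c < 125, ap g c = i := by
      intro i hi
      rw [← mem_full, ← he, mem_maskG] at hi
      obtain ⟨c, hc, h⟩ := hi
      exact ⟨c, mem_r125.1 hc, h⟩
    refine ⟨h1, ?_, ?_⟩
    · let f : Fin 125 → Fin 125 := fun c => ⟨ap g c, h1 c c.2⟩
      have hf : Function.Surjective f := by
        intro i
        obtain ⟨c, hc, h⟩ := h2 i i.2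
        exact ⟨⟨c, hc⟩, Fin.ext h⟩
      have hi := Finite.injective_iff_surjective.2 hf
      intro c hc d hd hcd
      have := @hi ⟨c, hc⟩ ⟨d, hd⟩ (Fin.ext hcd)
      exact congrArg Fin.val this
    · intro l hl
      have h3 := mem'_spec (allL_spec h l hl)
      rw [lines_eq, List.mem_map] at h3
      obtain ⟨l', hl', h4⟩ := h3
      refine ⟨l', hl', fun i => ?_⟩
      rw [← mem_maskL, h4, mem_maskG]

theorem transfer {g : ℕ} (h : isAut g = true) {M B : List ℕ} (hM : ∀ c ∈ M, c < 125)
    (hB : ∀ c ∈ B, c < 125) (hb : BP (maskG g M) (maskG g B)) : BW (posL M B) := by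
  obtain ⟨h1, h2, h3⟩ := aut_facts h
  have hb' : BW (posL (M.map (ap g)) (B.map (ap g))) := by
    rw [← posF_eq (mk := maskG g M) (br := maskG g B)]
    · exact hb
    · intro i; rw [mem_maskG, List.mem_map]
    · intro i; rw [mem_maskG, List.mem_map]
  let f : ℕ → ℕ := fun c => if c < 125 then ap g c else c
  have hf : Function.Injective f := by
    intro c d hcd
    by_cases hc : c < 125
    · by_cases hd : d < 125
      · simp only [f, if_pos hc, if_pos hd] at hcd
        exact h2 c hc d hd hcd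
      · simp only [f, if_pos hc, if_neg hd] at hcd
        have := h1 c hc
        omega
    · by_cases hd : d < 125
      · simp only [f, if_neg hc, if_pos hd] at hcd
        have := h1 d hd
        omega
      · simpa only [f, if_neg hc, if_neg hd] using hcd
  refine hb'.pull f hf ?_
  rintro e ⟨l, hl, hlB, rfl⟩
  obtain ⟨l', hl', hll⟩ := h3 l hl
  refine ⟨_, ⟨l', hl', ?_, rfl⟩, ?_⟩
  · intro c hc hcB
    obtain ⟨a, ha, rfl⟩ := (hll c).1 hc
    obtain ⟨b, hb, hab⟩ := List.mem_map.1 hcB
    have := h2 b (hB b hb) a (cells_lt hl a ha) hab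
    subst this
    exact hlB b ha hb
  · rintro x ⟨hx, hxM⟩
    obtain ⟨a, ha, rfl⟩ := (hll x).1 hx
    have ha' := cells_lt hl a ha
    refine ⟨a, ⟨ha, fun haM => hxM (List.mem_map_of_mem haM)⟩, ?_⟩
    simp only [f, if_pos ha']

/-! ### nodes of the game tree -/

def getP : List (ℕ × ℕ) → ℕ → ℕ × ℕ
  | [], _ => (0, 0)
  | p :: _, 0 => p
  | _ :: P, k + 1 => getP P k

theorem getP_mem {P : List (ℕ × ℕ)} {k : ℕ} (h : k < P.length) : getP P k ∈ P := by
  induction P generalizing k with
  | nil => exact absurd h (by simp)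
  | cons p P ih =>
    cases k with
    | zero => exact List.mem_cons_self
    | succ k => exact List.mem_cons_of_mem _ (ih (by simpa using h))

/-- a table entry: Maker's cell, Breaker's answer, number of the automorphism, number of the
target position -/
structure Ent where
  x : ℕ
  y : ℕ
  g : ℕ
  k : ℕ

def slot (A i : ℕ) : ℕ := Nat.land (Nat.shiftRight A (Nat.mul 1024 i)) (2 ^ 1024 - 1)

def entOK (A nA : ℕ) (P : List (ℕ × ℕ)) (M B : List ℕ) (t : Ent) : Bool :=
  (decide (t.x < 125) && decide (t.y < 125) && decide (t.g < nA) && decide (t.k < P.length)) &&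
  (!(Nat.beq t.x t.y) && !(mem' M t.y)) &&
  (Nat.beq (maskG (slot A t.g) (t.x :: M)) (getP P t.k).1 &&
    Nat.beq (maskG (slot A t.g) (t.y :: B)) (getP P t.k).2)

def covered (M B : List ℕ) (T : List Ent) : ℕ :=
  List.rec (motive := fun _ => ℕ) (Nat.lor (maskL M) (maskL B))
    (fun t _ ih => Nat.lor (Nat.shiftLeft 1 t.x) ih) T

theorem mem_covered {M B : List ℕ} {T : List Ent} {i : ℕ} (h : i ∈ st (covered M B T)) :
    i ∈ M ∨ i ∈ B ∨ ∃ t ∈ T, t.x = i := by
  induction T with
  | nil =>
    have : covered M B [] = Nat.lor (maskL M) (maskL B) := rfl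
    rw [this, st_or, mem_union, mem_maskL, mem_maskL] at h
    tauto
  | cons t T ih =>
    have : covered M B (t :: T) = Nat.lor (Nat.shiftLeft 1 t.x) (covered M B T) := rfl
    rw [this, st_or, st_shift, mem_union, mem_singleton_iff] at h
    rcases h with h | h
    · exact Or.inr (Or.inr ⟨t, List.mem_cons_self, h.symm⟩)
    · rcases ih h with h | h | ⟨t', ht', h⟩
      · exact Or.inl h
      · exact Or.inr (Or.inl h)
      · exact Or.inr (Or.inr ⟨t', List.mem_cons_of_mem _ ht', h⟩)

def nodeOK (A nA : ℕ) (P : List (ℕ × ℕ)) (M B : List ℕ) (T : List Ent) : Bool :=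
  (allL M (fun c => decide (c < 125)) && allL B (fun c => decide (c < 125))) &&
  (allL lines5 (fun l => !(Nat.beq (Nat.land l (maskL M)) l)) &&
  (Nat.beq (covered M B T) full && allL T (entOK A nA P M B)))

theorem node {A nA : ℕ} (hA : ∀ i < nA, isAut (slot A i) = true) {P : List (ℕ × ℕ)}
    (hP : ∀ p ∈ P, BP p.1 p.2) {M B : List ℕ} {T : List Ent}
    (h : nodeOK A nA P M B T = true) : BP (maskL M) (maskL B) := by
  unfold nodeOK at h
  simp only [Bool.and_eq_true] at h
  obtain ⟨⟨hM, hB⟩, h0, hc, hT⟩ := h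
  have hM' : ∀ c ∈ M, c < 125 := fun c hc => by simpa using allL_spec hM c hc
  have hB' : ∀ c ∈ B, c < 125 := fun c hc => by simpa using allL_spec hB c hc
  have hc' := Nat.eq_of_beq_eq_true hc
  unfold BP
  rw [posF_eq (M := M) (B := B) (fun i => mem_maskL) (fun i => mem_maskL)]
  apply BW.node
  · rintro ⟨l, hl, hlB, he⟩
    have h1 := allL_spec h0 (maskL l) (by rw [lines_eq]; exact List.mem_map_of_mem hl)
    have h2 : Nat.land (maskL l) (maskL M) = maskL l := by
      apply Nat.eq_of_testBit_eq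
      intro i
      have hl' : Nat.land (maskL l) (maskL M) = maskL l &&& maskL M := rfl
      rw [hl', Nat.testBit_and]
      cases hi : (maskL l).testBit i with
      | false => rfl
      | true =>
        have hil : i ∈ l := mem_maskL.1 hi
        have : i ∈ M := by
          by_contra hiM
          have : i ∈ ({x | x ∈ l ∧ x ∉ M} : Set ℕ) := ⟨hil, hiM⟩
          rw [← he] at this
          exact this
        have : (maskL M).testBit i = true := mem_maskL.2 this
        rw [this]; rfl
    rw [h2, Nat.beq_refl] at h1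
    exact absurd h1 (by simp)
  · rintro x ⟨e, ⟨l, hl, hlB, rfl⟩, hxl, hxM⟩
    have hx : x < 125 := cells_lt hl x hxl
    have hxc : x ∈ st (covered M B T) := by rw [hc']; exact mem_full.2 hx
    rcases mem_covered hxc with h1 | h1 | ⟨t, ht, rfl⟩
    · exact absurd h1 hxM
    · exact absurd h1 (hlB x hxl)
    · have h2 := allL_spec hT t ht
      unfold entOK at h2
      simp only [Bool.and_eq_true, decide_eq_true_eq, Bool.not_eq_true'] at h2
      obtain ⟨⟨⟨⟨⟨h3, h4⟩, h5⟩, h6⟩, h7, h8⟩, h9, h10⟩ := h2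
      have hne : t.y ≠ t.x := by
        intro h
        rw [h, Nat.beq_refl] at h7
        exact absurd h7 (by simp)
      have hyM : t.y ∉ M := by
        intro hy
        have : ∀ L : List ℕ, t.y ∈ L → mem' L t.y = true := by
          intro L hL
          induction L with
          | nil => exact absurd hL (by simp)
          | cons a L ih =>
            have hr : mem' (a :: L) t.y = cond (Nat.beq a t.y) true (mem' L t.y) := rfl
            rw [hr]
            rcases List.mem_cons.1 hL with h | h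
            · rw [← h, Nat.beq_refl]; rfl
            · rw [ih h]; cases Nat.beq a t.y <;> rfl
        rw [this M hy] at h8
        exact absurd h8 (by simp)
      refine ⟨t.y, hne, ?_⟩
      have hp := hP _ (getP_mem h6)
      rw [← Nat.eq_of_beq_eq_true h9, ← Nat.eq_of_beq_eq_true h10] at hp
      have hb := transfer (hA _ h5) (M := t.x :: M) (B := t.y :: B)
        (by
          intro c hc
          rcases List.mem_cons.1 hc with rfl | hc
          · exact h3
          · exact hM' c hc)
        (by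
          intro c hc
          rcases List.mem_cons.1 hc with rfl | hc
          · exact h4
          · exact hB' c hc) hp
      refine hb.mono ?_
      rintro s ⟨e, ⟨l, hl, hlB, rfl⟩, hye, rfl⟩
      refine ⟨_, ⟨l, hl, ?_, rfl⟩, ?_⟩
      · intro c hc hcB
        rcases List.mem_cons.1 hcB with rfl | hcB
        · exact hye ⟨hc, hyM⟩
        · exact hlB c hc hcB
      · rintro a ⟨ha, haM⟩
        refine ⟨⟨ha, fun h => haM (List.mem_cons_of_mem _ h)⟩, fun h => haM ?_⟩
        rw [mem_singleton_iff] at h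
        rw [h]
        exact List.mem_cons_self

end Pool.Agent.H805.T5
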