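import Mathlib
import Pool.Graph.R_seed8.Helper582.Cube
import Pool.Graph.R_seed8.Results.MP_c0c4a4_co.DrawFromSix
import Pool.Agent.H805.T5.Tree

set_option autoImplicit false

namespace Pool.Agent.H805.T5

open Pool.Agent.Helper582.Cube Set

/-! ### from the root position to the cube -/

theorem bits_shift (l : ℕ) : bits (Nat.shiftLeft l 16) = st l := by
  ext i
  have : Nat.shiftLeft l 16 = l <<< 16 := rfl
  simp only [bits, st, mem_ofPred_eq, this, Nat.testBit_shiftLeft]
  simp

def lines5s : List ℕ := lines5.map (fun l => Nat.shiftLeft l 16)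

theorem covers5 : covers 5 lines5s = true := by decide +kernel

theorem BW_cube5 (h : BP 0 0) : BW (cubeLines 5) := by
  refine BW_cube covers5 ?_
  refine h.mono ?_
  rintro k ⟨e, he, rfl⟩
  obtain ⟨l, hl, rfl⟩ := List.mem_map.1 he
  refine ⟨st l \ st 0, ⟨l, hl, ?_, rfl⟩, ?_⟩
  · have : Nat.land l 0 = l &&& 0 := rfl
    rw [this, Nat.and_zero]
  · rw [bits_shift]
    exact sdiff_subset

/-! ### plays -/

def seq {X : Type*} (mv : List X → X) : ℕ → List X
  | 0 => []
  | k + 1 => seq mv k ++ [mv (seq mv k)]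

theorem seq_length {X : Type*} (mv : List X → X) (k : ℕ) : (seq mv k).length = k := by
  induction k with
  | zero => rfl
  | succ k ih => rw [seq, List.length_append, ih]; rfl

theorem seq_eq_map {X : Type*} (mv : List X → X) (k : ℕ) :
    seq mv k = (List.range k).map (fun j => mv (seq mv j)) := by
  induction k with
  | zero => rfl
  | succ k ih => rw [seq, List.range_succ, List.map_append, ← ih]; rfl

theorem seq_get {X : Type*} (mv : List X → X) {k j : ℕ} (h : j < k) :
    (seq mv k)[j]? = some (mv (seq mv j)) := by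
  rw [seq_eq_map, List.getElem?_map, List.getElem?_range h]
  rfl

theorem seq_take {X : Type*} (mv : List X → X) {k j : ℕ} (h : j ≤ k) :
    (seq mv k).take j = seq mv j := by
  rw [seq_eq_map, ← List.map_take, List.take_range, Nat.min_eq_left h, ← seq_eq_map]

theorem seq_nodup {X : Type*} {mv : List X → X} {N : ℕ}
    (h : ∀ l : List X, l.Nodup → l.length < N → mv l ∉ l) {k : ℕ} (hk : k ≤ N) :
    (seq mv k).Nodup := by
  induction k with
  | zero => exact List.nodup_nil
  | succ k ih =>
    have hn := ih (by omega)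
    rw [seq, List.nodup_append]
    refine ⟨hn, List.nodup_singleton _, ?_⟩
    intro a ha b hb
    rw [List.mem_singleton] at hb
    subst hb
    rintro rfl
    exact h _ hn (by rw [seq_length]; omega) ha

theorem seq_inj {X : Type*} {mv : List X → X} {N : ℕ}
    (h : ∀ l : List X, l.Nodup → l.length < N → mv l ∉ l) {i j : ℕ} (hi : i < N) (hj : j < N)
    (he : mv (seq mv i) = mv (seq mv j)) : i = j := by
  have hn := seq_nodup h (le_refl N)
  have h1 := seq_get mv hi
  have h2 := seq_get mv hj
  obtain ⟨a1, a2⟩ := List.getElem?_eq_some_iff.1 h1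
  obtain ⟨b1, b2⟩ := List.getElem?_eq_some_iff.1 h2
  exact (List.Nodup.getElem_inj_iff hn).1 (a2.trans (he.trans b2.symm))

theorem exists_free {X : Type*} [Fintype X] [DecidableEq X] {l : List X}
    (h : l.length < Fintype.card X) : ∃ y, y ∉ l := by
  by_contra hc
  push Not at hc
  have h1 : (Finset.univ : Finset X) ⊆ l.toFinset := fun y _ => List.mem_toFinset.2 (hc y)
  have h2 := Finset.card_le_card h1
  have h3 := l.toFinset_card_le
  rw [Finset.card_univ] at h2
  omega

theorem card5 : Fintype.card (Fin 3 → Fin 5) = 125 := by simp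

/-- the first player cannot force a line -/
theorem first_no (hW : BW (cubeLines 5)) :
    ¬ ∃ σ : List (Fin 3 → Fin 5) → (Fin 3 → Fin 5),
      (∀ l : List (Fin 3 → Fin 5), l.Nodup → Even l.length → l.length < 125 → σ l ∉ l) ∧
      ∀ p : ℕ → (Fin 3 → Fin 5),
        (∀ i j : ℕ, i < 125 → j < 125 → p i = p j → i = j) →
        (∀ k : ℕ, k < 125 → Even k → p k = σ ((List.range k).map p)) →
        ∃ t : ℕ, t < 125 ∧
          (∃ a : Fin 3 → Fin 5, ∃ s : Fin 3 → Fin 3, (∃ j, s j ≠ 0) ∧
            ∀ i : Fin 5, ∃ k : ℕ, k ≤ t ∧ Even k ∧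
              p k = fun j => if s j = 0 then a j else if s j = 1 then i else i.rev) := by
  classical
  rintro ⟨σ, hσ, hw⟩
  set mv : List (Fin 3 → Fin 5) → (Fin 3 → Fin 5) := fun l =>
    if Even l.length then σ l else strat (cubeLines 5) l with hmv
  have hleg : ∀ l : List (Fin 3 → Fin 5), l.Nodup → l.length < 125 → mv l ∉ l := by
    intro l hl hlen
    simp only [hmv]
    split_ifs with he
    · exact hσ l hl he hlen
    · exact strat_not_mem _ (exists_free (by rw [card5]; exact hlen))
  obtain ⟨t, ht, a, s, hs, hline⟩ := hw (fun k => mv (seq mv k))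
    (fun i j hi hj h => seq_inj hleg hi hj h)
    (by
      intro k hk he
      rw [← seq_eq_map]
      simp only [hmv, seq_length, if_pos he])
  have hn := seq_nodup hleg (k := t + 1) (by omega)
  refine no_win (cubeLines 5) hW hn ?_ ⟨a, s, hs, rfl⟩ ?_
  · intro k hk c hc
    have hlt : k < t + 1 := by
      by_contra hge
      rw [List.getElem?_eq_none (by rw [seq_length]; omega)] at hc
      exact absurd hc (by simp)
    rw [seq_get mv hlt] at hc
    rw [seq_take mv (le_of_lt hlt)]
    have := Option.some.inj hc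
    rw [← this]
    simp only [hmv, seq_length, if_neg (Nat.not_even_iff_odd.2 hk)]
  · rintro v ⟨i, rfl⟩
    obtain ⟨k, hk, he, hp⟩ := hline i
    refine ⟨k, he, ?_⟩
    rw [seq_get mv (by omega), ← hp]

/-- the second player cannot force a line -/
theorem second_no (hW : BW (cubeLines 5)) :
    ¬ ∃ σ : List (Fin 3 → Fin 5) → (Fin 3 → Fin 5),
      (∀ l : List (Fin 3 → Fin 5), l.Nodup → Odd l.length → l.length < 125 → σ l ∉ l) ∧
      ∀ p : ℕ → (Fin 3 → Fin 5),
        (∀ i j : ℕ, i < 125 → j < 125 → p i = p j → i = j) →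
        (∀ k : ℕ, k < 125 → Odd k → p k = σ ((List.range k).map p)) →
        ∃ t : ℕ, t < 125 ∧
          (∃ a : Fin 3 → Fin 5, ∃ s : Fin 3 → Fin 3, (∃ j, s j ≠ 0) ∧
            ∀ i : Fin 5, ∃ k : ℕ, k ≤ t ∧ Odd k ∧
              p k = fun j => if s j = 0 then a j else if s j = 1 then i else i.rev) := by
  classical
  rintro ⟨σ, hσ, hw⟩
  let c0 : Fin 3 → Fin 5 := fun _ => 0
  let X := {c : Fin 3 → Fin 5 // c ≠ c0}
  have h1 : (fun _ => 1 : Fin 3 → Fin 5) ≠ c0 := by decide
  have h2 : (fun _ => 2 : Fin 3 → Fin 5) ≠ c0 := by decide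
  have h12 : (fun _ => 1 : Fin 3 → Fin 5) ≠ (fun _ => 2) := by decide
  have : Nontrivial X := ⟨⟨_, h1⟩, ⟨_, h2⟩, fun h => h12 (congrArg Subtype.val h)⟩
  let d : X := ⟨_, h1⟩
  let F : Set (Set X) := {s | ∃ e ∈ cubeLines 5, c0 ∉ e ∧ s = Subtype.val ⁻¹' e}
  have hF : BW F := by
    refine hW.pull (Subtype.val : X → (Fin 3 → Fin 5)) Subtype.val_injective ?_
    rintro s ⟨e, he, hc, rfl⟩
    refine ⟨e, he, ?_⟩
    intro v hv
    exact ⟨⟨v, fun h => hc (h ▸ hv)⟩, hv, rfl⟩
  set mv : List X → X := fun l =>
    if Even l.length then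
      (if h : σ (c0 :: l.map Subtype.val) ≠ c0 then ⟨σ (c0 :: l.map Subtype.val), h⟩ else d)
    else strat F l with hmv
  have hmvE : ∀ l : List X, Even l.length → ∀ h : σ (c0 :: l.map Subtype.val) ≠ c0,
      mv l = ⟨σ (c0 :: l.map Subtype.val), h⟩ := by
    intro l hl h
    simp only [hmv, if_pos hl, dif_pos h]
  have hmvO : ∀ l : List X, ¬ Even l.length → mv l = strat F l := by
    intro l hl
    simp only [hmv, if_neg hl]
  have hnd : ∀ l : List X, l.Nodup → (c0 :: l.map Subtype.val).Nodup := by
    intro l hl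
    rw [List.nodup_cons]
    refine ⟨?_, hl.map Subtype.val_injective⟩
    intro hc
    obtain ⟨v, _, hv⟩ := List.mem_map.1 hc
    exact v.2 hv
  have hσ' : ∀ l : List X, l.Nodup → l.length < 124 → Even l.length →
      σ (c0 :: l.map Subtype.val) ≠ c0 ∧ σ (c0 :: l.map Subtype.val) ∉ l.map Subtype.val := by
    intro l hl hlen he
    have := hσ (c0 :: l.map Subtype.val) (hnd l hl)
      (by rw [List.length_cons, List.length_map]; exact he.add_one)
      (by rw [List.length_cons, List.length_map]; omega)
    rw [List.mem_cons, not_or] at this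
    exact this
  have hcard : Fintype.card X = 124 := by
    have : Fintype.card X = Fintype.card (Fin 3 → Fin 5) - 1 := by
      rw [Fintype.card_subtype_compl, Fintype.card_subtype_eq]
    rw [this, card5]
  have hleg : ∀ l : List X, l.Nodup → l.length < 124 → mv l ∉ l := by
    intro l hl hlen
    simp only [hmv]
    split_ifs with he hne
    · intro hm
      exact (hσ' l hl hlen he).2 (List.mem_map_of_mem (f := Subtype.val) hm)
    · exact absurd (hσ' l hl hlen he).1 hne
    · exact strat_not_mem _ (exists_free (by rw [hcard]; exact hlen))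
  let p : ℕ → (Fin 3 → Fin 5) := fun k =>
    match k with
    | 0 => c0
    | k + 1 => (mv (seq mv k)).val
  have hp : ∀ k, (List.range (k + 1)).map p = c0 :: (seq mv k).map Subtype.val := by
    intro k
    rw [List.range_succ_eq_map, List.map_cons, List.map_map, seq_eq_map mv k, List.map_map]
    rfl
  have hinj : ∀ i j : ℕ, i < 125 → j < 125 → p i = p j → i = j := by
    intro i j hi hj h
    rcases i with _ | i <;> rcases j with _ | j
    · rfl
    · exact absurd h.symm (mv (seq mv j)).2
    · exact absurd h (mv (seq mv i)).2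
    · rw [seq_inj hleg (by omega : i < 124) (by omega : j < 124) (Subtype.val_injective h)]
  obtain ⟨t, ht, a, s, hs, hline⟩ := hw p hinj
    (by
      intro k hk ho
      rcases k with _ | k
      · exact absurd ho (by decide)
      · have hke : Even k := by
          rcases ho with ⟨m, hm⟩
          exact ⟨m, by omega⟩
        have hn := seq_nodup hleg (k := k) (by omega)
        have h3 := hσ' (seq mv k) hn (by rw [seq_length]; omega) (by rw [seq_length]; exact hke)
        rw [hp k]
        change (mv (seq mv k)).val = _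
        have : mv (seq mv k) = ⟨σ (c0 :: (seq mv k).map Subtype.val), h3.1⟩ := by
          exact hmvE _ (by rw [seq_length]; exact hke) h3.1
        rw [this])
  have ht' : t ≤ 124 := by omega
  set e : Set (Fin 3 → Fin 5) :=
    {v | ∃ i : Fin 5, v = fun j => if s j = 0 then a j else if s j = 1 then i else Fin.rev i} with he
  have hc : c0 ∉ e := by
    rintro ⟨i, hi⟩
    obtain ⟨k, hk, ho, hpk⟩ := hline i
    have : p k = p 0 := by rw [hpk, ← hi]
    have := hinj k 0 (by omega) (by omega) this
    subst this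
    exact absurd ho (by decide)
  refine no_win F hF (seq_nodup hleg (k := t) ht') ?_ (e := Subtype.val ⁻¹' e)
    ⟨e, ⟨a, s, hs, rfl⟩, hc, rfl⟩ ?_
  · intro k hk c hck
    have hlt : k < t := by
      by_contra hge
      rw [List.getElem?_eq_none (by rw [seq_length]; omega)] at hck
      exact absurd hck (by simp)
    rw [seq_get mv hlt] at hck
    rw [seq_take mv (le_of_lt hlt)]
    have := Option.some.inj hck
    rw [← this]
    have hne : ¬ Even (seq mv k).length := by rw [seq_length]; exact Nat.not_even_iff_odd.2 hk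
    exact hmvO _ hne
  · rintro v ⟨i, hi⟩
    obtain ⟨k, hk, ho, hpk⟩ := hline i
    rcases k with _ | k
    · exact absurd ho (by decide)
    · have hke : Even k := by
        rcases ho with ⟨m, hm⟩
        exact ⟨m, by omega⟩
      refine ⟨k, hke, ?_⟩
      rw [seq_get mv (by omega)]
      congr 1
      apply Subtype.ext
      change p (k + 1) = v.val
      rw [hpk, hi]

/-- the statement of S11207 -/
theorem s11207 (hW : BW (cubeLines 5)) :
  ∀ n ∈ ({5, 6, 7} : Finset ℕ),
    ∃ σ : List (Fin 3 → Fin n) → (Fin 3 → Fin n),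
      ∀ l : List (Fin 3 → Fin n), l.Nodup →
        (∀ k : ℕ, Odd k → ∀ c : Fin 3 → Fin n, l[k]? = some c → c = σ (l.take k)) →
        ((Odd l.length → (∃ c : Fin 3 → Fin n, c ∉ l) → σ l ∉ l) ∧
         ((∃ a : Fin 3 → Fin n, ∃ t : Fin 3 → Fin 3, (∃ j, t j ≠ 0) ∧
             ∀ i : Fin n, ∃ m : ℕ, Even m ∧
               l[m]? = some (fun j => if t j = 0 then a j else if t j = 1 then i else Fin.rev i)) →
          (∃ a : Fin 3 → Fin n, ∃ t : Fin 3 → Fin 3, (∃ j, t j ≠ 0) ∧
             ∀ i : Fin n, ∃ m : ℕ, Odd m ∧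
               l[m]? = some (fun j => if t j = 0 then a j else if t j = 1 then i else Fin.rev i)))) := by
  intro n hn
  simp only [Finset.mem_insert, Finset.mem_singleton] at hn
  rcases hn with rfl | hn
  · obtain ⟨σ, hσ⟩ := draw_of_BW hW
    exact ⟨σ, fun l hl hs => ⟨(hσ l hl hs).1, fun h => absurd h (hσ l hl hs).2⟩⟩
  · obtain ⟨σ, hσ⟩ := Pool.Agent.Results.MP_c0c4a4_co.DrawFromSix.result n (by omega)
    exact ⟨σ, fun l hl hs => ⟨(hσ l hl hs).1, fun h => absurd h (hσ l hl hs).2⟩⟩

end Pool.Agent.H805.T5
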