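import Mathlib
import Pool.Graph.R_seed8.Helper582.Cube
import Pool.Agent.H805.T5.Tree

set_option autoImplicit false

namespace Pool.Agent.H805.T5

open Pool.Agent.Helper582.Cube Set

/-- remove `z` from a list of cells -/
def rem (z : ℕ) (L : List ℕ) : List ℕ :=
  List.rec (motive := fun _ => List ℕ) [] (fun c _ ih => cond (Nat.beq c z) ih (c :: ih)) L

theorem mem_rem {z : ℕ} {L : List ℕ} {c : ℕ} : c ∈ rem z L ↔ c ∈ L ∧ c ≠ z := by
  induction L with
  | nil =>
    have : rem z [] = [] := rfl
    rw [this]; simp
  | cons a L ih =>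
    have h : rem z (a :: L) = cond (Nat.beq a z) (rem z L) (a :: rem z L) := rfl
    rw [h]
    cases hb : Nat.beq a z with
    | true =>
      have := Nat.eq_of_beq_eq_true hb
      subst this
      rw [cond_true, ih, List.mem_cons]
      constructor
      · rintro ⟨h1, h2⟩; exact ⟨Or.inr h1, h2⟩
      · rintro ⟨h1 | h1, h2⟩
        · exact absurd h1 h2
        · exact ⟨h1, h2⟩
    | false =>
      have hne : a ≠ z := by
        intro h; rw [h, Nat.beq_refl] at hb; exact absurd hb (by simp)
      rw [cond_false, List.mem_cons, List.mem_cons, ih]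
      constructor
      · rintro (rfl | ⟨h1, h2⟩)
        · exact ⟨Or.inl rfl, hne⟩
        · exact ⟨Or.inr h1, h2⟩
      · rintro ⟨h1 | h1, h2⟩
        · exact Or.inl h1
        · exact Or.inr ⟨h1, h2⟩

/-- a free entry: Maker's cell `x`, the cell `y` of Maker which is played last instead -/
def freeOK (A nA : ℕ) (P : List (ℕ × ℕ)) (M B : List ℕ) (t : Ent) : Bool :=
  (decide (t.x < 125) && decide (t.g < nA) && decide (t.k < P.length)) &&
  (mem' M t.y && !(Nat.beq t.x t.y)) &&
  (Nat.beq (maskG (slot A t.g) (t.x :: rem t.y M)) (getP P t.k).1 &&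
    Nat.beq (maskG (slot A t.g) B) (getP P t.k).2)

def nodeOK2 (A nA : ℕ) (P : List (ℕ × ℕ)) (M B : List ℕ) (T F : List Ent) : Bool :=
  (allL M (fun c => decide (c < 125)) && allL B (fun c => decide (c < 125))) &&
  (allL lines5 (fun l => !(Nat.beq (Nat.land l (maskL M)) l)) &&
  (Nat.beq (Nat.lor (covered M B T) (covered M B F)) full &&
    (allL T (entOK A nA P M B) && allL F (freeOK A nA P M B))))

theorem node2 {A nA : ℕ} (hA : ∀ i < nA, isAut (slot A i) = true) {P : List (ℕ × ℕ)}
    (hP : ∀ p ∈ P, BP p.1 p.2) {M B : List ℕ} {T F : List Ent}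
    (h : nodeOK2 A nA P M B T F = true) : BP (maskL M) (maskL B) := by
  unfold nodeOK2 at h
  simp only [Bool.and_eq_true] at h
  obtain ⟨⟨hM, hB⟩, h0, hc, hT, hF⟩ := h
  have hM' : ∀ c ∈ M, c < 125 := fun c hc => by simpa using allL_spec hM c hc
  have hB' : ∀ c ∈ B, c < 125 := fun c hc => by simpa using allL_spec hB c hc
  have hc' := Nat.eq_of_beq_eq_true hc
  unfold BP
  rw [posF_eq (M := M) (B := B) (fun i => mem_maskL) (fun i => mem_maskL)]
  apply BW.node
  · rintro ⟨l, hl, hlB, he⟩
    have h1 := allL_spec h0 (maskL l) (by rw [lines_eq]; exact List.mem_map_of_mem hl)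
    have h2 : Nat.land (maskL l) (maskL M) = maskL l := by
      apply Nat.eq_of_testBit_eq
      intro i
      have hl' : Nat.land (maskL l) (maskL M) = maskL l &&& maskL M := rfl
      rw [hl', Nat.testBit_and]
      cases hi : (maskL l).testBit i with
      | false => rfl
      | true =>
        have hil : i ∈ l := mem_maskL.1 hi
        have : i ∈ M := by
          by_contra hiM
          have : i ∈ ({x | x ∈ l ∧ x ∉ M} : Set ℕ) := ⟨hil, hiM⟩
          rw [← he] at this
          exact this
        have : (maskL M).testBit i = true := mem_maskL.2 this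
        rw [this]; rfl
    rw [h2, Nat.beq_refl] at h1
    exact absurd h1 (by simp)
  · rintro x ⟨e, ⟨l, hl, hlB, rfl⟩, hxl, hxM⟩
    have hx : x < 125 := cells_lt hl x hxl
    have hxc : x ∈ st (covered M B T) ∪ st (covered M B F) := by
      rw [← st_or, hc']; exact mem_full.2 hx
    rcases hxc with hxc | hxc
    · rcases mem_covered hxc with h1 | h1 | ⟨t, ht, rfl⟩
      · exact absurd h1 hxM
      · exact absurd h1 (hlB x hxl)
      · have h2 := allL_spec hT t ht
        unfold entOK at h2
        simp only [Bool.and_eq_true, decide_eq_true_eq, Bool.not_eq_true'] at h2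
        obtain ⟨⟨⟨⟨⟨h3, h4⟩, h5⟩, h6⟩, h7, h8⟩, h9, h10⟩ := h2
        have hne : t.y ≠ t.x := by
          intro h
          rw [h, Nat.beq_refl] at h7
          exact absurd h7 (by simp)
        have hyM : t.y ∉ M := by
          intro hy
          have : ∀ L : List ℕ, t.y ∈ L → mem' L t.y = true := by
            intro L hL
            induction L with
            | nil => exact absurd hL (by simp)
            | cons a L ih =>
              have hr : mem' (a :: L) t.y = cond (Nat.beq a t.y) true (mem' L t.y) := rfl
              rw [hr]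
              rcases List.mem_cons.1 hL with h | h
              · rw [← h, Nat.beq_refl]; rfl
              · rw [ih h]; cases Nat.beq a t.y <;> rfl
          rw [this M hy] at h8
          exact absurd h8 (by simp)
        refine ⟨t.y, hne, ?_⟩
        have hp := hP _ (getP_mem h6)
        rw [← Nat.eq_of_beq_eq_true h9, ← Nat.eq_of_beq_eq_true h10] at hp
        have hb := transfer (hA _ h5) (M := t.x :: M) (B := t.y :: B)
          (by
            intro c hc
            rcases List.mem_cons.1 hc with rfl | hc
            · exact h3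
            · exact hM' c hc)
          (by
            intro c hc
            rcases List.mem_cons.1 hc with rfl | hc
            · exact h4
            · exact hB' c hc) hp
        refine hb.mono ?_
        rintro s ⟨e, ⟨l, hl, hlB, rfl⟩, hye, rfl⟩
        refine ⟨_, ⟨l, hl, ?_, rfl⟩, ?_⟩
        · intro c hc hcB
          rcases List.mem_cons.1 hcB with rfl | hcB
          · exact hye ⟨hc, hyM⟩
          · exact hlB c hc hcB
        · rintro a ⟨ha, haM⟩
          refine ⟨⟨ha, fun h => haM (List.mem_cons_of_mem _ h)⟩, fun h => haM ?_⟩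
          rw [mem_singleton_iff] at h
          rw [h]
          exact List.mem_cons_self
    · rcases mem_covered hxc with h1 | h1 | ⟨t, ht, rfl⟩
      · exact absurd h1 hxM
      · exact absurd h1 (hlB x hxl)
      · have h2 := allL_spec hF t ht
        unfold freeOK at h2
        simp only [Bool.and_eq_true, decide_eq_true_eq, Bool.not_eq_true'] at h2
        obtain ⟨⟨⟨⟨h3, h5⟩, h6⟩, h7, h8⟩, h9, h10⟩ := h2
        have hyM : t.y ∈ M := mem'_spec h7
        have hne : t.y ≠ t.x := by
          intro h
          rw [h, Nat.beq_refl] at h8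
          exact absurd h8 (by simp)
        have hp := hP _ (getP_mem h6)
        rw [← Nat.eq_of_beq_eq_true h9, ← Nat.eq_of_beq_eq_true h10] at hp
        have hb := transfer (hA _ h5) (M := t.x :: rem t.y M) (B := B)
          (by
            intro c hc
            rcases List.mem_cons.1 hc with rfl | hc
            · exact h3
            · exact hM' c (mem_rem.1 hc).1) hB' hp
        obtain ⟨y, hy, hby⟩ := (safe_BW _ hb).2 t.y
        have key : ∀ y' : ℕ, (∀ l ∈ lineCells, y' ∉ ({x | x ∈ l ∧ x ∉ M} : Set ℕ) →
            y ∉ ({x | x ∈ l ∧ x ∉ t.x :: rem t.y M} : Set ℕ)) →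
            BW (reply (posL M B) t.x y') := by
          intro y' hyy
          refine hby.mono ?_
          rintro s ⟨e, ⟨l, hl, hlB, rfl⟩, hye, rfl⟩
          refine ⟨_, ⟨_, ⟨l, hl, hlB, rfl⟩, hyy l hl hye, rfl⟩, ?_⟩
          rintro c ⟨⟨hcl, hcM⟩, hcy⟩
          refine ⟨⟨hcl, fun h => ?_⟩, fun h => ?_⟩
          · by_cases hcz : c = t.y
            · exact hcy (by rw [hcz]; exact mem_singleton _)
            · exact hcM (List.mem_cons_of_mem _ (mem_rem.2 ⟨h, hcz⟩))
          · rw [mem_singleton_iff] at h
            exact hcM (by rw [h]; exact List.mem_cons_self)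
        by_cases hyx : y = t.x
        · refine ⟨t.y, hne, key t.y ?_⟩
          intro l _ _ h
          exact h.2 (by rw [hyx]; exact List.mem_cons_self)
        · refine ⟨y, hyx, key y ?_⟩
          intro l _ h1 h2
          refine h1 ⟨h2.1, fun h3 => h2.2 (List.mem_cons_of_mem _ (mem_rem.2 ⟨h3, hy⟩))⟩

theorem nilP : ∀ p ∈ ([] : List (ℕ × ℕ)), BP p.1 p.2 := by
  intro p hp
  exact absurd hp (by simp)

theorem consP {a b : ℕ} {L : List (ℕ × ℕ)} (h : BP a b) (hL : ∀ p ∈ L, BP p.1 p.2) :
    ∀ p ∈ (a, b) :: L, BP p.1 p.2 := by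
  intro p hp
  rcases List.mem_cons.1 hp with rfl | hp
  · exact h
  · exact hL p hp

end Pool.Agent.H805.T5
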