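import Mathlib
import Pool.Graph.R_seed8.Helper582.Cube
import Pool.Agent.H805.T5.Final

set_option autoImplicit false

namespace Pool.Agent.H805.T5

open Pool.Agent.Helper582.Cube Set

section
variable {X : Type*} (F : Set (Set X))

theorem inv_from [Nonempty X] {l : List X} (hl : l.Nodup)
    (hF : BW (alive F (l.take 2)))
    (hs : ∀ k : ℕ, Odd k → ∀ c : X, l[k]? = some c → c = strat F (l.take k)) :
    ∀ j, 2 * (j + 1) ≤ l.length → BW (alive F (l.take (2 * (j + 1)))) := by
  intro j
  induction j with
  | zero => intro _; exact hF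
  | succ j ih =>
    intro hj
    have h1 : 2 * (j + 1) < l.length := by omega
    have h2 : 2 * (j + 1) + 1 < l.length := by omega
    have hbw := ih (by omega)
    have hlen : (l.take (2 * (j + 1))).length = 2 * (j + 1) := by
      rw [List.length_take]; omega
    have ht1 : l.take (2 * (j + 1) + 1) = l.take (2 * (j + 1)) ++ [l[2 * (j + 1)]] := by
      rw [List.take_append_getElem h1]
    have ht2 : l.take (2 * (j + 1) + 2) = l.take (2 * (j + 1) + 1) ++ [l[2 * (j + 1) + 1]] := by
      rw [List.take_append_getElem h2]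
    have hy : l[2 * (j + 1) + 1] = strat F (l.take (2 * (j + 1)) ++ [l[2 * (j + 1)]]) := by
      rw [← ht1]
      exact hs (2 * (j + 1) + 1) ⟨j + 1, rfl⟩ _ (List.getElem?_eq_getElem h2)
    have hnot : l[2 * (j + 1) + 1] ∉ l.take (2 * (j + 1)) ++ [l[2 * (j + 1)]] := by
      rw [← ht1]
      intro hmem
      have hnd : (l.take (2 * (j + 1) + 2)).Nodup := hl.sublist (List.take_sublist _ _)
      rw [ht2, List.nodup_append] at hnd
      exact hnd.2.2 _ hmem _ (by simp) rfl
    have := step F (by rw [hlen]; exact even_two_mul _) hbw l[2 * (j + 1)] ⟨_, hnot⟩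
    rw [← hy] at this
    have e : l.take (2 * (j + 1 + 1)) =
        l.take (2 * (j + 1)) ++ [l[2 * (j + 1)], l[2 * (j + 1) + 1]] := by
      have : 2 * (j + 1 + 1) = 2 * (j + 1) + 2 := by ring
      rw [this, ht2, ht1, List.append_assoc]
      rfl
    rw [e]
    exact this

theorem no_win_from [Nonempty X] {l : List X} (hl : l.Nodup)
    (hF : 2 ≤ l.length → BW (alive F (l.take 2)))
    (hs : ∀ k : ℕ, Odd k → ∀ c : X, l[k]? = some c → c = strat F (l.take k))
    {e : Set X} (he : e ∈ F) (hbig : ∀ x : X, ¬ e ⊆ {x}) : ¬ (e ⊆ Mk l) := by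
  intro hsub
  have hsmall : l.length < 2 → False := by
    intro hlt
    rcases l with _ | ⟨x, l⟩
    · obtain ⟨v, hv⟩ : e.Nonempty := by
        by_contra hne
        rw [not_nonempty_iff_eq_empty] at hne
        by_cases hX : Nonempty X
        · obtain ⟨x⟩ := hX
          exact hbig x (by rw [hne]; exact empty_subset _)
        · exact hX inferInstance
      obtain ⟨m, _, hm⟩ := hsub hv
      simp at hm
    · have : l = [] := by
        rw [← List.length_eq_zero_iff]
        simp only [List.length_cons] at hlt
        omega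
      subst this
      refine hbig x ?_
      intro v hv
      obtain ⟨m, _, hm⟩ := hsub hv
      rcases m with _ | m
      · simp at hm; exact hm.symm
      · simp at hm
  rcases Nat.even_or_odd' l.length with ⟨j, hj | hj⟩
  · rcases j with _ | j
    · exact hsmall (by omega)
    have h := inv_from F hl (hF (by omega)) hs j (by omega)
    rw [List.take_of_length_le (by omega)] at h
    apply (safe_BW _ h).1
    refine ⟨e, he, fun c hc => not_both hl (hsub hc), ?_⟩
    ext a
    simp only [mem_empty_iff_false, mem_sdiff, false_iff, not_and, not_not]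
    exact fun ha => hsub ha
  · rcases j with _ | j
    · exact hsmall (by omega)
    have h := inv_from F hl (hF (by omega)) hs j (by omega)
    have h1 : 2 * (j + 1) < l.length := by omega
    have ht1 : l = l.take (2 * (j + 1)) ++ [l[2 * (j + 1)]] := by
      rw [List.take_append_getElem h1, List.take_of_length_le (by omega)]
    set p := l.take (2 * (j + 1)) with hp
    set x := l[2 * (j + 1)] with hx
    obtain ⟨y, hy, hb⟩ := (safe_BW _ h).2 x
    apply (safe_BW _ hb).1
    have hse : e \ Mk p ⊆ {x} := by
      rintro a ⟨ha, hna⟩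
      have := hsub ha
      rw [ht1] at this
      rcases Mk_append1 x this with h | h
      · exact absurd h hna
      · exact h
    refine ⟨e \ Mk p, ⟨e, he, ?_, rfl⟩, fun hye => hy (hse hye), ?_⟩
    · intro c hc hbr
      have hcl := hsub hc
      refine not_both hl hcl ?_
      obtain ⟨m, hm, hmc⟩ := hbr
      refine ⟨m, hm, ?_⟩
      rw [ht1]
      obtain ⟨h1, _⟩ := List.getElem?_eq_some_iff.1 hmc
      rw [List.getElem?_append_left h1, hmc]
    · symm
      rw [sdiff_eq_empty]
      exact hse

end

/-- the centre of the cube -/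
def centre : Fin 3 → Fin 5 := fun _ => 2

theorem line_big {e : Set (Fin 3 → Fin 5)} (he : e ∈ cubeLines 5) (x : Fin 3 → Fin 5) :
    ¬ e ⊆ {x} := by
  obtain ⟨a, t, ⟨j, hj⟩, rfl⟩ := he
  intro h
  have h0 := h ⟨0, rfl⟩
  have h1 := h ⟨1, rfl⟩
  rw [mem_singleton_iff] at h0 h1
  have := congrFun (h0.trans h1.symm) j
  simp only [if_neg hj] at this
  by_cases h2 : t j = 1
  · simp only [if_pos h2] at this
    exact absurd this (by decide)
  · simp only [if_neg h2] at this
    exact absurd this (by decide)

theorem non_centre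
    (h : ∀ x : Fin 3 → Fin 5, x ≠ centre → BW (reply (cubeLines 5) x centre)) :
    ∃ σ : List (Fin 3 → Fin 5) → (Fin 3 → Fin 5),
      ∀ l : List (Fin 3 → Fin 5), l.Nodup →
        (∀ c : Fin 3 → Fin 5, l[0]? = some c → c ≠ fun _ => 2) →
        (∀ k : ℕ, Odd k → ∀ c : Fin 3 → Fin 5, l[k]? = some c → c = σ (l.take k)) →
        ((Odd l.length → (∃ c : Fin 3 → Fin 5, c ∉ l) → σ l ∉ l) ∧
         ¬ ∃ a : Fin 3 → Fin 5, ∃ t : Fin 3 → Fin 3, (∃ j, t j ≠ 0) ∧
             ∀ i : Fin 5, ∃ m : ℕ, Even m ∧
               l[m]? = some (fun j => if t j = 0 then a j else if t j = 1 then i else Fin.rev i)) := by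
  refine ⟨strat (cubeLines 5), fun l hl hc hs => ⟨fun _ h => strat_not_mem _ h, ?_⟩⟩
  rintro ⟨a, t, ht, hw⟩
  refine no_win_from (cubeLines 5) hl ?_ hs ⟨a, t, ht, rfl⟩ (line_big ⟨a, t, ht, rfl⟩) ?_
  · intro h2
    rcases l with _ | ⟨x, _ | ⟨y, l⟩⟩
    · simp at h2
    · simp at h2
    · have hx : x ≠ centre := hc x rfl
      have hy : y = strat (cubeLines 5) [x] := hs 1 (by decide) y rfl
      have : BW (alive (cubeLines 5) ([x] ++ [strat (cubeLines 5) [x]])) := by
        apply strat_BW
        refine ⟨centre, by simpa using hx.symm, (h x hx).mono ?_⟩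
        rintro s ⟨e, he, hbr, rfl⟩
        have hM : Mk [x, centre] = {x} := by
          have := Mk_append2 (p := ([] : List (Fin 3 → Fin 5))) (by simp) x centre
          rw [List.nil_append] at this
          rw [this]
          ext v
          simp [Mk]
        have hB : Br [x, centre] = {centre} := by
          have := Br_append2 (p := ([] : List (Fin 3 → Fin 5))) (by simp) x centre
          rw [List.nil_append] at this
          rw [this]
          ext v
          simp [Br]
        have e1 : [x] ++ [centre] = [x, centre] := rfl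
        rw [e1, hM]
        rw [e1, hB] at hbr
        exact ⟨e \ {x}, ⟨e, he, fun hce => hbr centre hce rfl, rfl⟩, subset_rfl⟩
      rw [← hy] at this
      exact this
  · rintro v ⟨i, rfl⟩
    exact hw i

end Pool.Agent.H805.T5
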