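import Mathlib
import Pool.Agent.H805.T5.Final
import Pool.Agent.H805.T5.NonCentre
import Pool.Agent.H805.T5.TabT

set_option autoImplicit false

namespace Pool.Agent.H805.T5

open Pool.Agent.Helper582.Cube Set

theorem reply_of_posL {x y : Fin 3 → Fin 5} (hb : BW (posL [enc 5 x] [enc 5 y])) :
    BW (reply (cubeLines 5) x y) := by
  refine hb.pull (enc 5) (enc_inj 5) ?_
  rintro s ⟨e, he, hy, rfl⟩
  obtain ⟨k, ⟨m, hm, rfl⟩, hke⟩ := covers_spec covers5 e he
  obtain ⟨m', hm', rfl⟩ := List.mem_map.1 hm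
  rw [bits_shift] at hke
  rw [lines_eq, List.mem_map] at hm'
  obtain ⟨l, hl, rfl⟩ := hm'
  refine ⟨_, ⟨l, hl, ?_, rfl⟩, ?_⟩
  · intro c hc hcy
    rw [List.mem_singleton] at hcy
    subst hcy
    obtain ⟨v, hv, hve⟩ := hke (mem_maskL.2 hc)
    exact hy (enc_inj 5 hve ▸ hv)
  · rintro c ⟨hc, hcx⟩
    obtain ⟨v, hv, rfl⟩ := hke (mem_maskL.2 hc)
    exact ⟨v, ⟨hv, fun h => hcx (by rw [mem_singleton_iff] at h; rw [h]; exact List.mem_singleton_self _)⟩, rfl⟩

/-- reduction of the openings outside the centre to representatives -/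
theorem root_ok : allL entR (entOK autA 192 rootP [] []) = true := by decide +kernel

theorem root_cov : covered [62] [] entR = full := by decide +kernel

theorem root_y : allL entR (fun t => Nat.beq t.y 62) = true := by decide +kernel

theorem posL_of_ne {P : List (ℕ × ℕ)} (hP : ∀ p ∈ rootP, BP p.1 p.2) {c : ℕ} (hc : c < 125)
    (hne : c ≠ 62) : BW (posL [c] [62]) := by
  have hcov : c ∈ st (covered [62] [] entR) := by rw [root_cov]; exact mem_full.2 hc
  rcases mem_covered hcov with h | h | ⟨t, ht, rfl⟩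
  · exact absurd (List.mem_singleton.1 h) hne
  · exact absurd h (by simp)
  · have h2 := allL_spec root_ok t ht
    have h3 := Nat.eq_of_beq_eq_true (allL_spec root_y t ht)
    unfold entOK at h2
    simp only [Bool.and_eq_true, decide_eq_true_eq, Bool.not_eq_true'] at h2
    obtain ⟨⟨⟨⟨⟨h3', h4⟩, h5⟩, h6⟩, h7, h8⟩, h9, h10⟩ := h2
    have hp := hP _ (getP_mem h6)
    rw [← Nat.eq_of_beq_eq_true h9, ← Nat.eq_of_beq_eq_true h10] at hp
    rw [h3] at hp
    exact transfer (autOK _ h5) (M := [t.x]) (B := [62]) (by simpa using h3') (by simp) hp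

theorem enc_centre : enc 5 centre = 62 := by decide

theorem enc_lt (x : Fin 3 → Fin 5) : enc 5 x < 125 := by
  have h0 := (x 0).2
  have h1 := (x 1).2
  have h2 := (x 2).2
  have : enc 5 x = ((x 0 : ℕ) * 5 + x 1) * 5 + x 2 := rfl
  omega

/-- every opening outside the centre is answered by the centre -/
theorem non_centre_BW (hT : ∀ p ∈ posT, BP p.1 p.2) (hU : ∀ p ∈ posU, BP p.1 p.2)
    (x : Fin 3 → Fin 5) (hx : x ≠ centre) : BW (reply (cubeLines 5) x centre) := by
  apply reply_of_posL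
  rw [enc_centre]
  refine posL_of_ne (P := rootP) (hroot hT hU) (enc_lt x) ?_
  intro h
  exact hx (enc_inj 5 (h.trans enc_centre.symm))

end Pool.Agent.H805.T5
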