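import Mathlib
import Pool.Agent.H805.T5.Root

set_option autoImplicit false

namespace Pool.Agent.H805.T5

def memP (L : List (ℕ × ℕ)) (p : ℕ × ℕ) : Bool :=
  List.rec (motive := fun _ => Bool) false
    (fun e _ ih => cond (Nat.beq e.1 p.1) (cond (Nat.beq e.2 p.2) true ih) ih) L

theorem memP_spec {L : List (ℕ × ℕ)} {p : ℕ × ℕ} (h : memP L p = true) : p ∈ L := by
  induction L with
  | nil => exact absurd h (by simp [memP])
  | cons e L ih =>
    have h' : cond (Nat.beq e.1 p.1) (cond (Nat.beq e.2 p.2) true (memP L p)) (memP L p) = true := h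
    cases h1 : Nat.beq e.1 p.1 with
    | true =>
      rw [h1, cond_true] at h'
      cases h2 : Nat.beq e.2 p.2 with
      | true =>
        have : e = p := Prod.ext (Nat.eq_of_beq_eq_true h1) (Nat.eq_of_beq_eq_true h2)
        rw [this]
        exact List.mem_cons_self
      | false =>
        rw [h2, cond_false] at h'
        exact List.mem_cons_of_mem _ (ih h')
    | false =>
      rw [h1, cond_false] at h'
      exact List.mem_cons_of_mem _ (ih h')

theorem sub_of {L P : List (ℕ × ℕ)} (hL : ∀ p ∈ L, BP p.1 p.2)
    (h : allL P (memP L) = true) : ∀ p ∈ P, BP p.1 p.2 :=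
  fun p hp => hL p (memP_spec (allL_spec h p hp))

end Pool.Agent.H805.T5
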