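import Mathlib
import Pool.Agent.H805.T5.Sub
import Pool.Agent.H184.T5.AllT
import Pool.Agent.H805.T5.Tab.F1_91
import Pool.Agent.H805.T5.Tab.F2_33
import Pool.Agent.H805.T5.Tab.F4_33
import Pool.Agent.H805.T5.Tab.F6_81
import Pool.Agent.H805.T5.Tab.F7_33
import Pool.Agent.H805.T5.Tab.F8_33
import Pool.Agent.H805.T5.Tab.F9_33
import Pool.Agent.H805.T5.Tab.F12_43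
import Pool.Agent.H805.T5.Tab.F14_43
import Pool.Agent.H805.T5.Tab.F24_43
import Pool.Agent.H805.T5.Tab.F31_43
import Pool.Agent.H805.T5.Tab.F32_91
import Pool.Agent.H805.T5.Tab.F33_91
import Pool.Agent.H805.T5.Tab.F34_33
import Pool.Agent.H805.T5.Tab.F37_43
import Pool.Agent.H805.T5.Tab.F38_33
import Pool.Agent.H805.T5.Tab.F39_33
import Pool.Agent.H805.T5.Tab.F44_4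
import Pool.Agent.H805.T5.Tab.F49_43
import Pool.Agent.H805.T5.Tab.F64_41
import Pool.Agent.H805.T5.Tab.F74_43
import Pool.Agent.H805.T5.Tab.F124_33

set_option autoImplicit false

namespace Pool.Agent.H805.T5

open Pool.Agent.Helper582.Cube

theorem hTT : ∀ p ∈ posT, BP p.1 p.2 := sub_of Pool.Agent.H184.T5.allT (by decide +kernel)

theorem hUU : ∀ p ∈ posU, BP p.1 p.2 := sub_of Pool.Agent.H184.T5.allT (by decide +kernel)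

/-- the positions after the central opening, the reply in a corner and one more exchange -/
def P2 : List (ℕ × ℕ) :=
  [(maskL [62, 1], maskL [0, 91]),
   (maskL [62, 2], maskL [0, 33]),
   (maskL [62, 4], maskL [0, 33]),
   (maskL [62, 6], maskL [0, 81]),
   (maskL [62, 7], maskL [0, 33]),
   (maskL [62, 8], maskL [0, 33]),
   (maskL [62, 9], maskL [0, 33]),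
   (maskL [62, 12], maskL [0, 43]),
   (maskL [62, 14], maskL [0, 43]),
   (maskL [62, 24], maskL [0, 43]),
   (maskL [62, 31], maskL [0, 43]),
   (maskL [62, 32], maskL [0, 91]),
   (maskL [62, 33], maskL [0, 91]),
   (maskL [62, 34], maskL [0, 33]),
   (maskL [62, 37], maskL [0, 43]),
   (maskL [62, 38], maskL [0, 33]),
   (maskL [62, 39], maskL [0, 33]),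
   (maskL [62, 44], maskL [0, 4]),
   (maskL [62, 49], maskL [0, 43]),
   (maskL [62, 64], maskL [0, 41]),
   (maskL [62, 74], maskL [0, 43]),
   (maskL [62, 124], maskL [0, 33])]

theorem hP2 : ∀ p ∈ P2, BP p.1 p.2 := by
  intro p hp
  simp only [P2, List.mem_cons, List.not_mem_nil, or_false] at hp
  rcases hp with rfl | rfl | rfl | rfl | rfl | rfl | rfl | rfl | rfl | rfl | rfl | rfl | rfl | rfl | rfl | rfl | rfl | rfl | rfl | rfl | rfl | rfl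
  · exact F1_91.fam
  · exact F2_33.fam
  · exact F4_33.fam
  · exact F6_81.fam
  · exact F7_33.fam
  · exact F8_33.fam
  · exact F9_33.fam
  · exact F12_43.fam
  · exact F14_43.fam
  · exact F24_43.fam
  · exact F31_43.fam
  · exact F32_91.fam
  · exact F33_91.fam
  · exact F34_33.fam
  · exact F37_43.fam
  · exact F38_33.fam
  · exact F39_33.fam
  · exact F44_4.fam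
  · exact F49_43.fam
  · exact F64_41.fam
  · exact F74_43.fam
  · exact F124_33.fam

def ent2 : List Ent :=
  [⟨1, 91, 0, 0⟩,
   ⟨2, 33, 0, 1⟩,
   ⟨3, 33, 2, 0⟩,
   ⟨4, 33, 0, 2⟩,
   ⟨5, 83, 4, 0⟩,
   ⟨6, 81, 0, 3⟩,
   ⟨7, 33, 0, 4⟩,
   ⟨8, 33, 0, 5⟩,
   ⟨9, 33, 0, 6⟩,
   ⟨10, 41, 4, 1⟩,
   ⟨11, 41, 4, 4⟩,
   ⟨12, 43, 0, 7⟩,
   ⟨13, 83, 6, 4⟩,
   ⟨14, 43, 0, 8⟩,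
   ⟨15, 41, 6, 0⟩,
   ⟨16, 91, 2, 5⟩,
   ⟨17, 91, 2, 4⟩,
   ⟨18, 43, 2, 3⟩,
   ⟨19, 91, 2, 6⟩,
   ⟨20, 41, 4, 2⟩,
   ⟨21, 41, 4, 6⟩,
   ⟨22, 43, 4, 8⟩,
   ⟨23, 83, 6, 6⟩,
   ⟨24, 43, 0, 9⟩,
   ⟨25, 43, 5, 0⟩,
   ⟨26, 41, 1, 3⟩,
   ⟨27, 33, 1, 4⟩,
   ⟨28, 33, 1, 5⟩,
   ⟨29, 33, 1, 6⟩,
   ⟨30, 33, 8, 3⟩,
   ⟨31, 43, 0, 10⟩,
   ⟨32, 91, 0, 11⟩,
   ⟨33, 91, 0, 12⟩,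
   ⟨34, 33, 0, 13⟩,
   ⟨35, 41, 8, 4⟩,
   ⟨36, 83, 4, 11⟩,
   ⟨37, 43, 0, 14⟩,
   ⟨38, 33, 0, 15⟩,
   ⟨39, 33, 0, 16⟩,
   ⟨40, 41, 8, 5⟩,
   ⟨41, 83, 4, 12⟩,
   ⟨42, 41, 4, 15⟩,
   ⟨43, 81, 7, 12⟩,
   ⟨44, 4, 0, 17⟩,
   ⟨45, 41, 8, 6⟩,
   ⟨46, 41, 4, 13⟩,
   ⟨47, 41, 4, 16⟩,
   ⟨48, 20, 4, 17⟩,
   ⟨49, 43, 0, 18⟩,
   ⟨50, 81, 5, 1⟩,
   ⟨51, 81, 5, 4⟩,
   ⟨52, 83, 1, 7⟩,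
   ⟨53, 43, 7, 4⟩,
   ⟨54, 83, 1, 8⟩,
   ⟨55, 81, 9, 4⟩,
   ⟨56, 43, 5, 11⟩,
   ⟨57, 83, 1, 14⟩,
   ⟨58, 33, 1, 15⟩,
   ⟨59, 33, 1, 16⟩,
   ⟨60, 91, 8, 7⟩,
   ⟨61, 91, 8, 14⟩,
   ⟨63, 33, 10, 14⟩,
   ⟨64, 41, 0, 19⟩,
   ⟨65, 43, 11, 4⟩,
   ⟨66, 91, 3, 15⟩,
   ⟨67, 41, 3, 14⟩,
   ⟨68, 81, 7, 11⟩,
   ⟨69, 91, 3, 16⟩,
   ⟨70, 91, 8, 8⟩,
   ⟨71, 41, 8, 16⟩,
   ⟨72, 33, 4, 19⟩,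
   ⟨73, 83, 10, 16⟩,
   ⟨74, 43, 0, 20⟩,
   ⟨75, 81, 7, 0⟩,
   ⟨76, 91, 3, 5⟩,
   ⟨77, 91, 3, 4⟩,
   ⟨78, 83, 3, 3⟩,
   ⟨79, 91, 3, 6⟩,
   ⟨80, 81, 9, 5⟩,
   ⟨81, 43, 5, 12⟩,
   ⟨82, 81, 5, 15⟩,
   ⟨83, 41, 6, 12⟩,
   ⟨84, 4, 1, 17⟩,
   ⟨85, 83, 10, 4⟩,
   ⟨86, 91, 2, 15⟩,
   ⟨87, 81, 2, 14⟩,
   ⟨88, 41, 6, 11⟩,
   ⟨89, 91, 2, 16⟩,
   ⟨90, 91, 10, 3⟩,
   ⟨91, 33, 2, 12⟩,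
   ⟨92, 33, 2, 11⟩,
   ⟨93, 81, 2, 10⟩,
   ⟨94, 91, 2, 13⟩,
   ⟨95, 83, 10, 6⟩,
   ⟨96, 20, 6, 17⟩,
   ⟨97, 83, 6, 16⟩,
   ⟨98, 83, 6, 13⟩,
   ⟨99, 81, 2, 18⟩,
   ⟨100, 81, 5, 2⟩,
   ⟨101, 81, 5, 6⟩,
   ⟨102, 83, 5, 8⟩,
   ⟨103, 43, 7, 6⟩,
   ⟨104, 83, 1, 9⟩,
   ⟨105, 81, 9, 6⟩,
   ⟨106, 81, 5, 13⟩,
   ⟨107, 81, 5, 16⟩,
   ⟨108, 100, 5, 17⟩,
   ⟨109, 83, 1, 18⟩,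
   ⟨110, 91, 9, 8⟩,
   ⟨111, 81, 9, 16⟩,
   ⟨112, 33, 5, 19⟩,
   ⟨113, 43, 11, 16⟩,
   ⟨114, 83, 1, 20⟩,
   ⟨115, 43, 11, 6⟩,
   ⟨116, 100, 7, 17⟩,
   ⟨117, 43, 7, 16⟩,
   ⟨118, 43, 7, 13⟩,
   ⟨119, 41, 3, 18⟩,
   ⟨120, 91, 8, 9⟩,
   ⟨121, 91, 8, 18⟩,
   ⟨122, 91, 8, 20⟩,
   ⟨123, 33, 10, 18⟩,
   ⟨124, 33, 0, 21⟩]

theorem ok2 : nodeOK autA 192 P2 [62] [0] ent2 = true := by decide +kernel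

theorem centre_ok : BP (maskL [62]) (maskL [0]) := node autOK hP2 ok2

def P1 : List (ℕ × ℕ) := (maskL [62], maskL [0]) :: rootP

theorem hP1 : ∀ p ∈ P1, BP p.1 p.2 := by
  intro p hp
  rcases List.mem_cons.1 hp with rfl | hp
  · exact centre_ok
  · exact hroot hTT hUU p hp

def ent1 : List Ent :=
  [⟨0, 62, 0, 1⟩,
   ⟨1, 62, 0, 2⟩,
   ⟨2, 62, 0, 3⟩,
   ⟨3, 62, 2, 2⟩,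
   ⟨4, 62, 12, 1⟩,
   ⟨5, 62, 4, 2⟩,
   ⟨6, 62, 48, 2⟩,
   ⟨7, 62, 0, 4⟩,
   ⟨8, 62, 80, 2⟩,
   ⟨9, 62, 26, 2⟩,
   ⟨10, 62, 4, 3⟩,
   ⟨11, 62, 4, 4⟩,
   ⟨12, 62, 0, 5⟩,
   ⟨13, 62, 6, 4⟩,
   ⟨14, 62, 24, 3⟩,
   ⟨15, 62, 6, 2⟩,
   ⟨16, 62, 73, 2⟩,
   ⟨17, 62, 2, 4⟩,
   ⟨18, 62, 57, 2⟩,
   ⟨19, 62, 24, 2⟩,
   ⟨20, 62, 16, 1⟩,
   ⟨21, 62, 28, 2⟩,
   ⟨22, 62, 28, 3⟩,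
   ⟨23, 62, 30, 2⟩,
   ⟨24, 62, 36, 1⟩,
   ⟨25, 62, 5, 2⟩,
   ⟨26, 62, 49, 2⟩,
   ⟨27, 62, 1, 4⟩,
   ⟨28, 62, 81, 2⟩,
   ⟨29, 62, 27, 2⟩,
   ⟨30, 62, 52, 2⟩,
   ⟨31, 62, 48, 1⟩,
   ⟨32, 62, 52, 3⟩,
   ⟨33, 62, 66, 1⟩,
   ⟨34, 62, 66, 2⟩,
   ⟨35, 62, 8, 4⟩,
   ⟨36, 62, 49, 3⟩,
   ⟨37, 62, 51, 5⟩,
   ⟨38, 62, 81, 3⟩,
   ⟨39, 62, 81, 4⟩,
   ⟨40, 62, 77, 2⟩,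
   ⟨41, 62, 61, 1⟩,
   ⟨42, 62, 77, 3⟩,
   ⟨43, 62, 69, 1⟩,
   ⟨44, 62, 89, 2⟩,
   ⟨45, 62, 32, 2⟩,
   ⟨46, 62, 61, 2⟩,
   ⟨47, 62, 77, 4⟩,
   ⟨48, 62, 93, 2⟩,
   ⟨49, 62, 170, 2⟩,
   ⟨50, 62, 5, 3⟩,
   ⟨51, 62, 5, 4⟩,
   ⟨52, 62, 1, 5⟩,
   ⟨53, 62, 7, 4⟩,
   ⟨54, 62, 25, 3⟩,
   ⟨55, 62, 9, 4⟩,
   ⟨56, 62, 48, 3⟩,
   ⟨57, 62, 50, 5⟩,
   ⟨58, 62, 80, 3⟩,
   ⟨59, 62, 80, 4⟩,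
   ⟨60, 62, 8, 5⟩,
   ⟨61, 62, 48, 5⟩,
   ⟨62, 0, 0, 0⟩,
   ⟨63, 62, 58, 5⟩,
   ⟨64, 62, 144, 5⟩,
   ⟨65, 62, 11, 4⟩,
   ⟨66, 62, 73, 3⟩,
   ⟨67, 62, 55, 5⟩,
   ⟨68, 62, 57, 3⟩,
   ⟨69, 62, 75, 4⟩,
   ⟨70, 62, 32, 3⟩,
   ⟨71, 62, 73, 4⟩,
   ⟨72, 62, 148, 5⟩,
   ⟨73, 62, 82, 4⟩,
   ⟨74, 62, 168, 3⟩,
   ⟨75, 62, 7, 2⟩,
   ⟨76, 62, 72, 2⟩,
   ⟨77, 62, 3, 4⟩,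
   ⟨78, 62, 56, 2⟩,
   ⟨79, 62, 25, 2⟩,
   ⟨80, 62, 76, 2⟩,
   ⟨81, 62, 60, 1⟩,
   ⟨82, 62, 76, 3⟩,
   ⟨83, 62, 68, 1⟩,
   ⟨84, 62, 88, 2⟩,
   ⟨85, 62, 10, 4⟩,
   ⟨86, 62, 72, 3⟩,
   ⟨87, 62, 54, 5⟩,
   ⟨88, 62, 56, 3⟩,
   ⟨89, 62, 74, 4⟩,
   ⟨90, 62, 54, 2⟩,
   ⟨91, 62, 64, 1⟩,
   ⟨92, 62, 54, 3⟩,
   ⟨93, 62, 54, 1⟩,
   ⟨94, 62, 64, 2⟩,
   ⟨95, 62, 34, 2⟩,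
   ⟨96, 62, 84, 2⟩,
   ⟨97, 62, 78, 4⟩,
   ⟨98, 62, 68, 2⟩,
   ⟨99, 62, 168, 2⟩,
   ⟨100, 62, 17, 1⟩,
   ⟨101, 62, 29, 2⟩,
   ⟨102, 62, 29, 3⟩,
   ⟨103, 62, 31, 2⟩,
   ⟨104, 62, 37, 1⟩,
   ⟨105, 62, 33, 2⟩,
   ⟨106, 62, 60, 2⟩,
   ⟨107, 62, 76, 4⟩,
   ⟨108, 62, 92, 2⟩,
   ⟨109, 62, 171, 2⟩,
   ⟨110, 62, 33, 3⟩,
   ⟨111, 62, 72, 4⟩,
   ⟨112, 62, 149, 5⟩,
   ⟨113, 62, 83, 4⟩,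
   ⟨114, 62, 169, 3⟩,
   ⟨115, 62, 35, 2⟩,
   ⟨116, 62, 85, 2⟩,
   ⟨117, 62, 79, 4⟩,
   ⟨118, 62, 69, 2⟩,
   ⟨119, 62, 169, 2⟩,
   ⟨120, 62, 44, 1⟩,
   ⟨121, 62, 176, 2⟩,
   ⟨122, 62, 176, 3⟩,
   ⟨123, 62, 178, 2⟩,
   ⟨124, 62, 180, 1⟩]

theorem ok1 : nodeOK autA 192 P1 [] [] ent1 = true := by decide +kernel

theorem root_BP : BP 0 0 := node (M := []) (B := []) autOK hP1 ok1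

/-- Breaker, moving second, wins on the 5 × 5 × 5 cube -/
theorem cube5 : BW (cubeLines 5) := BW_cube5 root_BP

end Pool.Agent.H805.T5
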